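import Mathlib
import Pool.Agent.Q46.FrB

/-!
# Cubed trinomial coefficient sums: both monotonicity statements (Q1 and Q2)
-/

open Finset Filter Topology

namespace Pool.Agent.Results.MP_b41085_nt.RatioAndRootMonotone

/-- `S n = ∑_{i + j ≤ n} (n! / (i! j! (n-i-j)!))^3` -/
def S (n : ℕ) : ℕ := ∑ i ∈ range (n + 1), ∑ j ∈ range (n + 1 - i),
  (n.factorial / (i.factorial * j.factorial * (n - i - j).factorial)) ^ 3

/-- `a n = S (n+1) / S n` -/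
noncomputable def a (n : ℕ) : ℝ := (S (n + 1) : ℝ) / (S n : ℝ)

/-- `b n = S (n+1) ^ (1/(n+1)) / (S n) ^ (1/n)` (used for `n ≥ 1`) -/
noncomputable def b (n : ℕ) : ℝ :=
  (S (n + 1) : ℝ) ^ (1 / ((n : ℝ) + 1)) / (S n : ℝ) ^ (1 / (n : ℝ))

/-- Q1: `a` is strictly increasing with limit `27`; Q2: `b 1 > b 2 > …` with limit `1`. -/
theorem result :
    (StrictMono a ∧ Tendsto a atTop (𝓝 27)) ∧
    ((∀ n, 1 ≤ n → b (n + 1) < b n) ∧ Tendsto b atTop (𝓝 1)) := by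
  have hS : ∀ n, (S n : ℝ) = Q46.Fr.S n := Q46.Fr.T_eq
  have ha : a = Q46.Fr.x := by
    funext n
    unfold a Q46.Fr.x
    rw [hS, hS]
  have hb : b = Q46.Fr.b := by
    funext n
    unfold b Q46.Fr.b
    rw [hS, hS]
  rw [ha, hb]
  exact ⟨⟨Q46.Fr.x_strictMono, Q46.Fr.x_tendsto⟩, Q46.Fr.b_anti, Q46.Fr.b_tendsto⟩

end Pool.Agent.Results.MP_b41085_nt.RatioAndRootMonotone
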